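import Pool.Agent.helper83.LS.Spec

set_option autoImplicit false

/-!
# ls:GI. The symmetries preserve general position and cardinality
-/

namespace LSH

theorem GI_set (f : Pt → Pt) (p : Pt) (S : Finset Pt) :
    (insert (f p) ((S.image f : Finset Pt) : Set Pt)) = f '' (insert p (S : Set Pt)) := by
  rw [Finset.coe_image, Set.image_insert_eq]

theorem GI_fx : Function.Injective fx := by
  intro a b h
  have h1 := congrArg Prod.fst h
  have h2 := congrArg Prod.snd h
  simp only [fx] at h1 h2
  exact Prod.ext (by linarith) h2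

theorem GI_fy : Function.Injective fy := by
  intro a b h
  have h1 := congrArg Prod.fst h
  have h2 := congrArg Prod.snd h
  simp only [fy] at h1 h2
  exact Prod.ext h1 (by linarith)

theorem GI_sw : Function.Injective sw := by
  intro a b h
  have h1 := congrArg Prod.fst h
  have h2 := congrArg Prod.snd h
  simp only [sw] at h1 h2
  exact Prod.ext h2 h1

theorem GI : GI_stmt := by
  intro p S hG
  refine ⟨⟨?_, Finset.card_image_of_injective S GI_fx⟩, ⟨?_, Finset.card_image_of_injective S GI_fy⟩,
    ⟨?_, Finset.card_image_of_injective S GI_sw⟩⟩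
  · rw [GI_set]
    rintro _ ⟨a, ha, rfl⟩ _ ⟨b, hb, rfl⟩ hne
    have h := hG a ha b hb (fun h => hne (by rw [h]))
    exact ⟨fun h1 => h.1 (neg_injective h1), h.2⟩
  · rw [GI_set]
    rintro _ ⟨a, ha, rfl⟩ _ ⟨b, hb, rfl⟩ hne
    have h := hG a ha b hb (fun h => hne (by rw [h]))
    exact ⟨h.1, fun h1 => h.2 (neg_injective h1)⟩
  · rw [GI_set]
    rintro _ ⟨a, ha, rfl⟩ _ ⟨b, hb, rfl⟩ hne
    have h := hG a ha b hb (fun h => hne (by rw [h]))
    exact ⟨h.2, h.1⟩

end LSH
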